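import Mathlib

/-!
Diagonals of separately absolutely continuous maps `[0,1]² → Z` into an arbitrary metric space are
absolute Baire-one maps.
-/

namespace Pool.Agent.Results.MP_680d10_gt.DiagonalAbsoluteBaire

open Set Topology Filter
open scoped ENNReal

variable {Z : Type*} [PseudoMetricSpace Z]

/-- Transition: from the horizontal line `F a ·` to the horizontal line `F b ·`. -/
lemma transition (F : ℝ → ℝ → Z) (h1 : ∀ u, Continuous fun v => F u v)
    (h2 : ∀ v, Continuous fun u => F u v) {a b t t' c : ℝ} (hab : a ≤ b) (htt' : t < t')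
    (hc : c ∈ Icc t t') :
    ∃ h : ℝ → Z, Continuous h ∧ (∀ x ≤ t, h x = F a x) ∧ (∀ x, t' ≤ x → h x = F b x) ∧
      ∀ x ∈ Icc t t', (∃ v ∈ Icc t t', h x = F a v) ∨ (∃ u ∈ Icc a b, h x = F u c) ∨
        ∃ v ∈ Icc t t', h x = F b v := by
  obtain ⟨t1, ht1⟩ : ∃ t1, t1 = t + (t' - t) / 3 := ⟨_, rfl⟩
  obtain ⟨t2, ht2⟩ : ∃ t2, t2 = t + 2 * (t' - t) / 3 := ⟨_, rfl⟩
  have htt1 : t < t1 := by rw [ht1]; linarith
  have ht12 : t1 < t2 := by rw [ht1, ht2]; linarith
  have ht2' : t2 < t' := by rw [ht2]; linarith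
  let V1 : ℝ → ℝ := fun x => min x t + (c - t) * (max 0 (x - t) / (t1 - t))
  let U : ℝ → ℝ := fun x => a + (b - a) * ((x - t1) / (t2 - t1))
  let V2 : ℝ → ℝ := fun x => max x t' + (c - t') * (max 0 (t' - x) / (t' - t2))
  have hV1 : Continuous V1 := by fun_prop
  have hU : Continuous U := by fun_prop
  have hV2 : Continuous V2 := by fun_prop
  have hV1t1 : V1 t1 = c := by
    simp only [V1]
    rw [min_eq_right htt1.le, max_eq_right (by linarith), div_self (by linarith)]
    ring
  have hUt1 : U t1 = a := by simp [U]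
  have hUt2 : U t2 = b := by
    simp only [U]
    rw [div_self (by linarith)]
    ring
  have hV2t2 : V2 t2 = c := by
    simp only [V2]
    rw [max_eq_right ht2'.le, max_eq_right (by linarith), div_self (by linarith)]
    ring
  let h : ℝ → Z := fun x => if x ≤ t1 then F a (V1 x) else if x ≤ t2 then F (U x) c
    else F b (V2 x)
  refine ⟨h, ?_, ?_, ?_, ?_⟩
  · refine Continuous.if_le ((h1 a).comp hV1) ?_ continuous_id continuous_const ?_
    · refine Continuous.if_le ((h2 c).comp hU) ((h1 b).comp hV2) continuous_id continuous_const ?_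
      intro x hx
      have hx' : x = t2 := hx
      subst hx'
      rw [hUt2, hV2t2]
    · intro x hx
      have hx' : x = t1 := hx
      subst hx'
      rw [if_pos ht12.le, hUt1, hV1t1]
  · intro x hx
    simp only [h]
    rw [if_pos (hx.trans htt1.le)]
    simp only [V1]
    rw [min_eq_left hx, max_eq_left (by linarith)]
    simp
  · intro x hx
    simp only [h]
    rw [if_neg (by linarith), if_neg (by linarith)]
    simp only [V2]
    rw [max_eq_left hx, max_eq_left (by linarith)]
    simp
  · rintro x ⟨hx1, hx2⟩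
    by_cases hxt1 : x ≤ t1
    · left
      refine ⟨V1 x, ?_, by simp only [h]; rw [if_pos hxt1]⟩
      simp only [V1]
      rw [min_eq_right hx1, max_eq_right (by linarith)]
      have h3 : 0 ≤ (x - t) / (t1 - t) := div_nonneg (by linarith) (by linarith)
      have h4 : (x - t) / (t1 - t) ≤ 1 := (div_le_one (by linarith)).2 (by linarith)
      have h5 : 0 ≤ c - t := by linarith [hc.1]
      have h6 := mul_nonneg h5 h3
      have h7 := mul_le_mul_of_nonneg_left h4 h5
      constructor
      · linarith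
      · linarith [hc.2]
    · right
      push Not at hxt1
      by_cases hxt2 : x ≤ t2
      · left
        refine ⟨U x, ?_, by simp only [h]; rw [if_neg (not_le.2 hxt1), if_pos hxt2]⟩
        simp only [U]
        have h3 : 0 ≤ (x - t1) / (t2 - t1) := div_nonneg (by linarith) (by linarith)
        have h4 : (x - t1) / (t2 - t1) ≤ 1 := (div_le_one (by linarith)).2 (by linarith)
        have h5 : 0 ≤ b - a := by linarith
        have h6 := mul_nonneg h5 h3
        have h7 := mul_le_mul_of_nonneg_left h4 h5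
        constructor
        · linarith
        · linarith
      · right
        push Not at hxt2
        refine ⟨V2 x, ?_, by
          simp only [h]; rw [if_neg (not_le.2 hxt1), if_neg (not_le.2 hxt2)]⟩
        simp only [V2]
        rw [max_eq_right hx2, max_eq_right (by linarith)]
        have h3 : 0 ≤ (t' - x) / (t' - t2) := div_nonneg (by linarith) (by linarith)
        have h4 : (t' - x) / (t' - t2) ≤ 1 := (div_le_one (by linarith)).2 (by linarith)
        have h5 : 0 ≤ t' - c := by linarith [hc.2]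
        have h6 := mul_nonneg h5 h3
        have h7 := mul_le_mul_of_nonneg_left h4 h5
        constructor
        · linarith [hc.1]
        · linarith

/-- The variation in the first variable over a fixed set is lower semicontinuous in the second
variable. -/
lemma lsc_variation (F : ℝ → ℝ → Z) (h1 : ∀ u, Continuous fun v => F u v) (s : Set ℝ) :
    LowerSemicontinuous fun x => eVariationOn (fun u => F u x) s := by
  intro x y hy
  exact eVariationOn.lowerSemicontinuous_aux (fun u _ => (h1 u).continuousAt) hy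

/-- The transition with all the estimates. -/
lemma cell (F : ℝ → ℝ → Z) (h1 : ∀ u, Continuous fun v => F u v)
    (h2 : ∀ v, Continuous fun u => F u v) {a b t δ : ℝ} (hab : a ≤ b) (hδ : 0 < δ) {ε : ℝ}
    (hε : 0 < ε) :
    ∃ h : ℝ → Z, Continuous h ∧ h t = F a t ∧ h (t + δ) = F b (t + δ) ∧
      ∀ x ∈ Icc t (t + δ), edist (h x) (F b x) ≤
        ENNReal.ofReal ε + eVariationOn (fun u => F u x) (Icc a b) := by
  -- a short interval on which `F a ·` and `F b ·` oscillate little
  obtain ⟨η, hη, hηδ, hηa, hηb⟩ : ∃ η, 0 < η ∧ η ≤ δ ∧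
      (∀ v ∈ Icc t (t + η), ∀ w ∈ Icc t (t + η), edist (F a v) (F a w) ≤ ENNReal.ofReal (ε / 2)) ∧
      (∀ v ∈ Icc t (t + η), ∀ w ∈ Icc t (t + η), edist (F b v) (F b w) ≤ ENNReal.ofReal (ε / 2)) := by
    have hcont : ∀ c : ℝ, ∃ η, 0 < η ∧ ∀ v ∈ Icc t (t + η), ∀ w ∈ Icc t (t + η),
        edist (F c v) (F c w) ≤ ENNReal.ofReal (ε / 2) := by
      intro c
      obtain ⟨η, hη, h⟩ := Metric.continuousAt_iff.1 ((h1 c).continuousAt (x := t)) (ε / 4)
        (by linarith)
      refine ⟨η / 2, by linarith, fun v hv w hw => ?_⟩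
      have hv' := h (x := v) (by rw [Real.dist_eq, abs_lt]; constructor <;> linarith [hv.1, hv.2])
      have hw' := h (x := w) (by rw [Real.dist_eq, abs_lt]; constructor <;> linarith [hw.1, hw.2])
      rw [edist_dist]
      apply ENNReal.ofReal_le_ofReal
      have := dist_triangle_right (F c v) (F c w) (F c t)
      linarith
    obtain ⟨η1, hη1, ha⟩ := hcont a
    obtain ⟨η2, hη2, hb⟩ := hcont b
    refine ⟨min (min η1 η2) δ, by positivity, min_le_right _ _, fun v hv w hw => ?_,
      fun v hv w hw => ?_⟩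
    · have hle : min (min η1 η2) δ ≤ η1 := (min_le_left _ _).trans (min_le_left _ _)
      exact ha v ⟨hv.1, by linarith [hv.2]⟩ w ⟨hw.1, by linarith [hw.2]⟩
    · have hle : min (min η1 η2) δ ≤ η2 := (min_le_left _ _).trans (min_le_right _ _)
      exact hb v ⟨hv.1, by linarith [hv.2]⟩ w ⟨hw.1, by linarith [hw.2]⟩
  -- the best transition time
  obtain ⟨c, hc, hmin⟩ := LowerSemicontinuousOn.exists_isMinOn (s := Icc t (t + η))
    (nonempty_Icc.2 (by linarith)) isCompact_Icc
    ((lsc_variation F h1 (Icc a b)).lowerSemicontinuousOn _)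
  obtain ⟨h, hcont, hl, hr, hm⟩ := transition F h1 h2 hab (show t < t + η by linarith) hc
  refine ⟨h, hcont, hl t le_rfl, hr _ (by linarith), fun x hx => ?_⟩
  by_cases hxη : t + η ≤ x
  · rw [hr x hxη, edist_self]
    exact zero_le
  push Not at hxη
  have hxI : x ∈ Icc t (t + η) := ⟨hx.1, hxη.le⟩
  have hhalf : ENNReal.ofReal (ε / 2) + ENNReal.ofReal (ε / 2) = ENNReal.ofReal ε := by
    rw [← ENNReal.ofReal_add (by linarith) (by linarith)]
    congr 1
    ring
  have hle : ENNReal.ofReal (ε / 2) ≤ ENNReal.ofReal ε := ENNReal.ofReal_le_ofReal (by linarith)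
  rcases hm x hxI with ⟨v, hv, hxv⟩ | ⟨u, hu, hxu⟩ | ⟨v, hv, hxv⟩
  · rw [hxv]
    calc edist (F a v) (F b x) ≤ edist (F a v) (F a x) + edist (F a x) (F b x) :=
          edist_triangle _ _ _
      _ ≤ ENNReal.ofReal (ε / 2) + eVariationOn (fun u => F u x) (Icc a b) :=
          add_le_add (hηa v hv x hxI) (eVariationOn.edist_le (fun u => F u x)
            (left_mem_Icc.2 hab) (right_mem_Icc.2 hab))
      _ ≤ _ := by gcongr
  · rw [hxu]
    calc edist (F u c) (F b x) ≤ edist (F u c) (F b c) + edist (F b c) (F b x) :=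
          edist_triangle _ _ _
      _ ≤ eVariationOn (fun u => F u x) (Icc a b) + ENNReal.ofReal (ε / 2) := by
          refine add_le_add ?_ (hηb c hc x hxI)
          exact (eVariationOn.edist_le (fun u => F u c) hu (right_mem_Icc.2 hab)).trans
            (hmin hxI)
      _ ≤ _ := by rw [add_comm]; gcongr
  · rw [hxv]
    calc edist (F b v) (F b x) ≤ ENNReal.ofReal (ε / 2) := hηb v hv x hxI
      _ ≤ ENNReal.ofReal ε := hle
      _ ≤ _ := le_self_add

/-- Gluing of the cells. -/
lemma glue (F : ℝ → ℝ → Z) (h1 : ∀ u, Continuous fun v => F u v)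
    (h2 : ∀ v, Continuous fun u => F u v) {δ ε : ℝ} (hδ : 0 < δ) (hε : 0 < ε) (N : ℕ) :
    ∃ g : ℝ → Z, Continuous g ∧ g (N * δ) = F ((N + 2) * δ) (N * δ) ∧
      ∀ i < N, ∀ x ∈ Icc (i * δ) ((i + 1) * δ), edist (g x) (F ((i + 3) * δ) x) ≤
        ENNReal.ofReal ε + eVariationOn (fun u => F u x) (Icc ((i + 2) * δ) ((i + 3) * δ)) := by
  induction N with
  | zero => exact ⟨fun x => F (2 * δ) x, h1 _, by simp, fun i hi => absurd hi (Nat.not_lt_zero i)⟩
  | succ N ih =>
    obtain ⟨g, hg, hgN, hgi⟩ := ih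
    obtain ⟨h, hh, hh1, hh2, hh3⟩ := cell F h1 h2 (a := (N + 2) * δ) (b := (N + 3) * δ)
      (t := N * δ) (by nlinarith) hδ hε
    have e1 : (N : ℝ) * δ + δ = (N + 1) * δ := by ring
    rw [e1] at hh2 hh3
    refine ⟨fun x => if x ≤ N * δ then g x else h x, ?_, ?_, ?_⟩
    · refine Continuous.if_le hg hh continuous_id continuous_const ?_
      intro x hx
      have hx' : x = N * δ := hx
      rw [hx', hgN, hh1]
    · have : ¬ (((N + 1 : ℕ) : ℝ) * δ ≤ N * δ) := by
        push_cast
        nlinarith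
      simp only
      rw [if_neg this]
      push_cast
      rw [hh2]
      congr 1
      ring
    · intro i hi x hx
      rcases Nat.lt_succ_iff_lt_or_eq.1 hi with hiN | hiN
      · have hle : x ≤ N * δ := by
          refine hx.2.trans ?_
          have : (i : ℝ) + 1 ≤ N := by exact_mod_cast hiN
          nlinarith
        simp only
        rw [if_pos hle]
        exact hgi i hiN x hx
      · subst hiN
        have hval : (if x ≤ (i : ℝ) * δ then g x else h x) = h x := by
          split_ifs with hle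
          · have hx' : x = i * δ := le_antisymm hle hx.1
            rw [hx', hgN, hh1]
          · rfl
        simp only
        rw [hval]
        exact hh3 x hx

/-- The theorem on the real line. -/
theorem main (F : ℝ → ℝ → Z) (h1 : ∀ u, Continuous fun v => F u v)
    (h2 : ∀ v, Continuous fun u => F u v)
    (hbv : ∀ v, eVariationOn (fun u => F u v) univ ≠ ⊤) :
    ∃ g : ℕ → ℝ → Z, (∀ n, Continuous (g n)) ∧ ∀ x ∈ Icc (0 : ℝ) 1,
      Tendsto (fun n => g n x) atTop (𝓝 (F x x)) ∧
      Summable fun n => dist (g (n + 1) x) (g n x) := by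
  have hδ : ∀ n : ℕ, (0 : ℝ) < (1 / 4 : ℝ) ^ n := fun n => by positivity
  have hε : ∀ n : ℕ, (0 : ℝ) < (1 / 2 : ℝ) ^ n := fun n => by positivity
  choose g hg _ hgi using fun n : ℕ => glue F h1 h2 (hδ n) (hε n) (4 ^ n + 1)
  refine ⟨g, hg, fun x hx => ?_⟩
  -- the reference points
  let i : ℕ → ℕ := fun n => ⌊x / (1 / 4 : ℝ) ^ n⌋₊
  let A : ℕ → ℝ := fun n => (i n + 3) * (1 / 4 : ℝ) ^ n
  have hi1 : ∀ n, (i n : ℝ) * (1 / 4 : ℝ) ^ n ≤ x := by
    intro n
    have := Nat.floor_le (div_nonneg hx.1 (hδ n).le)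
    rwa [le_div_iff₀ (hδ n)] at this
  have hi2 : ∀ n, x < ((i n : ℝ) + 1) * (1 / 4 : ℝ) ^ n := by
    intro n
    have := Nat.lt_floor_add_one (x / (1 / 4 : ℝ) ^ n)
    rwa [div_lt_iff₀ (hδ n)] at this
  have hiN : ∀ n, i n < 4 ^ n + 1 := by
    intro n
    have h3 : (i n : ℝ) * (1 / 4 : ℝ) ^ n ≤ 1 := (hi1 n).trans hx.2
    have h4 : (i n : ℝ) ≤ 4 ^ n := by
      have h5 : (1 / 4 : ℝ) ^ n * 4 ^ n = 1 := by
        rw [← mul_pow]; norm_num
      calc (i n : ℝ) = (i n : ℝ) * ((1 / 4 : ℝ) ^ n * 4 ^ n) := by rw [h5, mul_one]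
        _ = ((i n : ℝ) * (1 / 4 : ℝ) ^ n) * 4 ^ n := by ring
        _ ≤ 1 * 4 ^ n := by gcongr
        _ = 4 ^ n := one_mul _
    have h6 : i n ≤ 4 ^ n := by exact_mod_cast h4
    omega
  have hA1 : ∀ n, A n ≤ x + 3 * (1 / 4 : ℝ) ^ n := by
    intro n
    have := hi1 n
    simp only [A]
    nlinarith
  have hA2 : ∀ n, x < A n := by
    intro n
    have := hi2 n
    have := hδ n
    simp only [A]
    nlinarith
  have hAB : ∀ n, A (n + 1) ≤ ((i n : ℝ) + 2) * (1 / 4 : ℝ) ^ n := by
    intro n
    have h3 := hA1 (n + 1)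
    have h4 := hi2 n
    have h5 := hδ n
    rw [pow_succ] at h3
    nlinarith
  have hAA : ∀ n, A (n + 1) ≤ A n := by
    intro n
    refine (hAB n).trans ?_
    have := hδ n
    simp only [A]
    nlinarith
  have hAanti : Antitone A := antitone_nat_of_succ_le hAA
  -- the variations between the reference points
  let w : ℕ → ℝ := fun n => (eVariationOn (fun u => F u x) (Icc (A (n + 1)) (A n))).toReal
  have hfin : ∀ a b : ℝ, eVariationOn (fun u => F u x) (Icc a b) ≠ ⊤ := fun a b =>
    ne_top_of_le_ne_top (hbv x) (eVariationOn.mono _ (subset_univ _))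
  have hsum : ∀ n, ∑ k ∈ Finset.range n,
      eVariationOn (fun u => F u x) (Icc (A (k + 1)) (A k)) =
      eVariationOn (fun u => F u x) (Icc (A n) (A 0)) := by
    intro n
    induction n with
    | zero => simp [eVariationOn.subsingleton]
    | succ n ih =>
      rw [Finset.sum_range_succ, ih, add_comm]
      have := eVariationOn.Icc_add_Icc (fun u => F u x) (s := univ) (hAA n)
        (hAanti (Nat.zero_le n)) (mem_univ _)
      simpa only [univ_inter] using this
  have hw0 : ∀ n, 0 ≤ w n := fun n => ENNReal.toReal_nonneg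
  have hwsum : Summable w := by
    refine summable_of_sum_range_le (c := (eVariationOn (fun u => F u x) univ).toReal) hw0 ?_
    intro n
    have : ∑ k ∈ Finset.range n, w k = (∑ k ∈ Finset.range n,
        eVariationOn (fun u => F u x) (Icc (A (k + 1)) (A k))).toReal := by
      rw [ENNReal.toReal_sum fun k _ => hfin _ _]
    rw [this, hsum n]
    exact ENNReal.toReal_mono (hbv x) (eVariationOn.mono _ (subset_univ _))
  have hd1 : ∀ n, dist (g n x) (F (A n) x) ≤ (1 / 2 : ℝ) ^ n + w n := by
    intro n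
    have h3 := hgi n (i n) (hiN n) x ⟨hi1 n, (hi2 n).le⟩
    have h4 : eVariationOn (fun u => F u x)
        (Icc (((i n : ℝ) + 2) * (1 / 4 : ℝ) ^ n) (((i n : ℝ) + 3) * (1 / 4 : ℝ) ^ n)) ≤
        eVariationOn (fun u => F u x) (Icc (A (n + 1)) (A n)) :=
      eVariationOn.mono _ (Icc_subset_Icc (hAB n) le_rfl)
    have h5 : edist (g n x) (F (A n) x) ≤ ENNReal.ofReal ((1 / 2 : ℝ) ^ n) +
        eVariationOn (fun u => F u x) (Icc (A (n + 1)) (A n)) :=
      h3.trans (add_le_add le_rfl h4)
    have h6 := ENNReal.toReal_mono (ENNReal.add_ne_top.2 ⟨ENNReal.ofReal_ne_top, hfin _ _⟩) h5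
    rw [ENNReal.toReal_add ENNReal.ofReal_ne_top (hfin _ _), ENNReal.toReal_ofReal (hε n).le,
      edist_dist, ENNReal.toReal_ofReal dist_nonneg] at h6
    exact h6
  have hd2 : ∀ n, dist (F (A (n + 1)) x) (F (A n) x) ≤ w n := by
    intro n
    have h3 := eVariationOn.edist_le (fun u => F u x) (left_mem_Icc.2 (hAA n))
      (right_mem_Icc.2 (hAA n))
    have h4 := ENNReal.toReal_mono (hfin _ _) h3
    rwa [edist_dist, ENNReal.toReal_ofReal dist_nonneg] at h4
  have hgeo : Summable fun n : ℕ => (1 / 2 : ℝ) ^ n := summable_geometric_two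
  constructor
  · have hAx : Tendsto A atTop (𝓝 x) := by
      have h3 : Tendsto (fun n : ℕ => x + 3 * (1 / 4 : ℝ) ^ n) atTop (𝓝 (x + 3 * 0)) :=
        tendsto_const_nhds.add
          ((tendsto_pow_atTop_nhds_zero_of_lt_one (by norm_num) (by norm_num)).const_mul 3)
      rw [mul_zero, add_zero] at h3
      exact tendsto_of_tendsto_of_tendsto_of_le_of_le tendsto_const_nhds h3
        (fun n => (hA2 n).le) hA1
    have h4 : Tendsto (fun n => F (A n) x) atTop (𝓝 (F x x)) :=
      ((h2 x).tendsto x).comp hAx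
    rw [tendsto_iff_dist_tendsto_zero]
    have h5 : Tendsto (fun n => ((1 / 2 : ℝ) ^ n + w n) + dist (F (A n) x) (F x x)) atTop
        (𝓝 ((0 + 0) + 0)) :=
      (hgeo.tendsto_atTop_zero.add hwsum.tendsto_atTop_zero).add
        (tendsto_iff_dist_tendsto_zero.1 h4)
    rw [add_zero, add_zero] at h5
    refine squeeze_zero (fun n => dist_nonneg) (fun n => ?_) h5
    have := dist_triangle (g n x) (F (A n) x) (F x x)
    linarith [hd1 n]
  · have hS : Summable fun n => ((1 / 2 : ℝ) ^ (n + 1) + w (n + 1)) + w n +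
        ((1 / 2 : ℝ) ^ n + w n) :=
      ((((summable_nat_add_iff 1).2 hgeo).add ((summable_nat_add_iff 1).2 hwsum)).add hwsum).add
        (hgeo.add hwsum)
    refine Summable.of_nonneg_of_le (fun n => dist_nonneg) (fun n => ?_) hS
    have h3 := dist_triangle4 (g (n + 1) x) (F (A (n + 1)) x) (F (A n) x) (g n x)
    have h4 := hd1 (n + 1)
    have h5 := hd1 n
    rw [dist_comm] at h5
    have h6 := hd2 n
    linarith

/-- An absolutely continuous map into a (pseudo)metric space is continuous. -/
lemma continuousOn_of_ac {f : ℝ → Z} {a b : ℝ} (hf : AbsolutelyContinuousOnInterval f a b) :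
    ContinuousOn f (uIcc a b) := by
  rw [absolutelyContinuousOnInterval_iff] at hf
  rw [Metric.continuousOn_iff]
  intro x hx ε hε
  obtain ⟨δ, hδ, h⟩ := hf ε hε
  refine ⟨δ, hδ, fun y hy hyx => ?_⟩
  have h3 := h (1, fun _ => (y, x)) (by
    constructor
    · intro i _
      exact ⟨hy, hx⟩
    · simp [Set.PairwiseDisjoint, Set.Pairwise]) (by simpa using hyx)
  simpa using h3

/-- An absolutely continuous map into a (pseudo)metric space has bounded variation (the proof is
that of Mathlib for normed groups). -/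
lemma boundedVariationOn_of_ac {f : ℝ → Z} {a b : ℝ}
    (hf : AbsolutelyContinuousOnInterval f a b) : BoundedVariationOn f (uIcc a b) := by
  wlog hab₀ : a ≤ b generalizing a b
  · specialize @this b a hf.symm (by linarith)
    rwa [uIcc_comm]
  rw [uIcc_of_le hab₀]
  rcases hab₀.eq_or_lt with rfl | hab
  · simp [BoundedVariationOn]
  rw [absolutelyContinuousOnInterval_iff] at hf
  obtain ⟨δ, hδ₁, hδ₂⟩ := hf 1 (by linarith)
  have hab₁ : 0 < b - a := by linarith
  obtain ⟨n, hn⟩ := exists_nat_one_div_lt (div_pos hδ₁ hab₁)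
  set δ' := (b - a) / (n + 1)
  have hδ₃ : δ' < δ := by
    dsimp only [δ']
    convert! mul_lt_mul_of_pos_right hn hab₁ using 1 <;> field
  have h_mono : Monotone fun (i : ℕ) ↦ a + ↑i * δ' := by
    apply Monotone.const_add
    apply Monotone.mul_const Nat.mono_cast
    simp only [δ']
    refine div_nonneg ?_ ?_ <;> linarith
  have v_sum : eVariationOn f (Icc a b) =
      ∑ i ∈ Finset.range (n + 1), eVariationOn f (Icc (a + i * δ') (a + (i + 1) * δ')) := by
    convert! eVariationOn.sum' f (I := fun i ↦ a + i * δ') h_mono |>.symm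
    · simp
    · simp only [Nat.cast_add, Nat.cast_one, δ']; field
    · norm_cast
  have v_each (x y : ℝ) (_ : a ≤ x) (_ : x ≤ y) (_ : y < x + δ) (_ : y ≤ b) :
      eVariationOn f (Icc x y) ≤ 1 := by
    simp only [eVariationOn, iSup_le_iff]
    intro p
    obtain ⟨hp₁, hp₂⟩ := p.2.property
    have vf : ∑ i ∈ Finset.range p.1, dist (f (p.2.val i)) (f (p.2.val (i + 1))) < 1 := by
      apply hδ₂ (p.1, (fun i ↦ (p.2.val i, p.2.val (i + 1))))
      · constructor
        · have : Icc x y ⊆ uIcc a b := by rw [uIcc_of_le hab₀]; gcongr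
          intro i hi
          constructor <;> exact this (hp₂ _)
        · rw [PairwiseDisjoint]
          convert! hp₁.pairwise_disjoint_on_Ioc_succ.set_pairwise (Finset.range p.1) using 3
          rw [uIoc_of_le (hp₁ (by lia)), Nat.succ_eq_succ]
      · suffices p.2.val p.1 - p.2.val 0 < δ by
          convert! this
          rw [← Finset.sum_range_sub]
          congr; ext i
          rw [dist_comm, Real.dist_eq, abs_eq_self.mpr]
          linarith [@hp₁ i (i + 1) (by lia)]
        linarith [mem_Icc.mp (hp₂ p.1), mem_Icc.mp (hp₂ 0)]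
    have veq : (∑ i ∈ Finset.range p.1, edist (f (p.2.val (i + 1))) (f (p.2.val i))).toReal =
        ∑ i ∈ Finset.range p.1, dist (f (p.2.val i)) (f (p.2.val (i + 1))) := by
      rw [ENNReal.toReal_sum (by simp [edist_ne_top])]
      simp_rw [← dist_edist]; congr; ext i; nth_rw 1 [dist_comm]
    have not_top : ∑ i ∈ Finset.range p.1, edist (f (p.2.val (i + 1))) (f (p.2.val i)) ≠ ⊤ := by
      simp [edist_ne_top]
    rw [← ENNReal.ofReal_toReal not_top]
    convert! ENNReal.ofReal_le_ofReal (veq.symm ▸ vf.le)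
    simp
  simp only [BoundedVariationOn, v_sum, ne_eq, ENNReal.sum_eq_top, Finset.mem_range, not_exists,
    not_and]
  intro i hi
  suffices eVariationOn f (Icc (a + i * δ') (a + (i + 1) * δ')) ≤ 1 from
    fun hC ↦ by simp [hC] at this
  apply v_each
  · convert! h_mono (show 0 ≤ i by lia); simp
  · convert! h_mono (show i ≤ i + 1 by lia); norm_cast
  · rw [add_mul, ← add_assoc]; simpa
  · convert! h_mono (show i + 1 ≤ n + 1 by lia)
    · norm_cast
    · simp only [Nat.cast_add, Nat.cast_one, δ']; field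

/-- **The diagonal of a separately absolutely continuous map `f : [0,1]² → Z` into an arbitrary
metric space is absolute Baire-one**: it is the pointwise limit on `[0,1]` of continuous maps
`g n : [0,1] → Z` with `∑ n, d (g (n+1) x) (g n x) < ∞` for every `x`. -/
theorem result {Z : Type*} [MetricSpace Z] (f : ℝ → ℝ → Z)
    (hx : ∀ y ∈ Icc (0 : ℝ) 1, AbsolutelyContinuousOnInterval (fun x => f x y) 0 1)
    (hy : ∀ x ∈ Icc (0 : ℝ) 1, AbsolutelyContinuousOnInterval (fun y => f x y) 0 1) :
    ∃ g : ℕ → ℝ → Z, (∀ n, ContinuousOn (g n) (Icc 0 1)) ∧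
      ∀ x ∈ Icc (0 : ℝ) 1, Tendsto (fun n => g n x) atTop (𝓝 (f x x)) ∧
        Summable fun n => dist (g (n + 1) x) (g n x) := by
  have huIcc : uIcc (0 : ℝ) 1 = Icc 0 1 := uIcc_of_le zero_le_one
  let π : ℝ → ℝ := fun x => max 0 (min 1 x)
  have hπc : Continuous π := by fun_prop
  have hπm : ∀ x, π x ∈ Icc (0 : ℝ) 1 := fun x =>
    ⟨le_max_left _ _, max_le zero_le_one (min_le_left _ _)⟩
  have hπid : ∀ x ∈ Icc (0 : ℝ) 1, π x = x := by
    rintro x ⟨h0, h1⟩
    simp only [π]
    rw [min_eq_right h1, max_eq_right h0]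
  have hπmono : Monotone π := fun x y hxy => max_le_max le_rfl (min_le_min le_rfl hxy)
  obtain ⟨g, hg, hgx⟩ := main (fun u v => f (π u) (π v))
    (fun u => by
      have := continuousOn_of_ac (hy (π u) (hπm u))
      rw [huIcc] at this
      exact this.comp_continuous hπc hπm)
    (fun v => by
      have := continuousOn_of_ac (hx (π v) (hπm v))
      rw [huIcc] at this
      exact this.comp_continuous hπc hπm)
    (fun v => by
      have h3 := boundedVariationOn_of_ac (hx (π v) (hπm v))
      rw [huIcc] at h3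
      have h4 := eVariationOn.comp_le_of_monotoneOn (fun x => f x (π v)) (s := Icc 0 1)
        (t := univ) π (hπmono.monotoneOn _) (fun x _ => hπm x)
      exact ne_top_of_le_ne_top h3 h4)
  refine ⟨g, fun n => (hg n).continuousOn, fun x hx' => ?_⟩
  have := hgx x hx'
  simp only [hπid x hx'] at this
  exact this

end Pool.Agent.Results.MP_680d10_gt.DiagonalAbsoluteBaire
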